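import Pool.Agent.K1H77.CG.Stm

/-!
Project CG (helper77), piece PERMS (helper26): number of the permutations with a given number of moved
points and a given number of nontrivial cycles.
-/

set_option autoImplicit false

open Finset Filter Topology

namespace Pool.Agent.K1H26.CG

open Pool.Agent.K1H77.CG

open scoped Nat

lemma countPerms_spec (μ : Multiset ℕ) :
    (∏ a ∈ μ.toFinset, (μ.count a)!) * μ.countPerms = (Multiset.card μ)! := by
  rw [Multiset.countPerms, Finsupp.multinomial_eq]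
  have h := Nat.multinomial_spec μ.toFinsupp.support μ.toFinsupp
  simpa using h

lemma perms_le (n : ℕ) (μ : Multiset ℕ) :
    ((univ : Finset (Equiv.Perm (Fin n))).filter (fun π => π.cycleType = μ)).card *
      (Multiset.card μ)! ≤ n ^ μ.sum * μ.countPerms := by
  have h := Equiv.Perm.card_of_cycleType_mul_eq (Fin n) μ
  rw [Fintype.card_fin] at h
  by_cases hm : μ.sum ≤ n ∧ ∀ a ∈ μ, 2 ≤ a
  · rw [if_pos hm] at h
    rw [← countPerms_spec]
    generalize ((univ : Finset (Equiv.Perm (Fin n))).filter (fun π => π.cycleType = μ)).card = N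
      at h ⊢
    generalize (∏ a ∈ μ.toFinset, (μ.count a)!) = D at h ⊢
    have h1 : (n - μ.sum)! * n.descFactorial μ.sum = n ! := Nat.factorial_mul_descFactorial hm.1
    have hp : 1 ≤ μ.prod :=
      Nat.succ_le_of_lt (Multiset.prod_pos fun a ha => by have := hm.2 a ha; omega)
    have h2 : N * D ≤ n.descFactorial μ.sum := by
      have h3 : (n - μ.sum)! * (N * D) ≤ (n - μ.sum)! * n.descFactorial μ.sum := by
        rw [h1, ← h]
        calc (n - μ.sum)! * (N * D) = N * ((n - μ.sum)! * 1 * D) := by ring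
          _ ≤ N * ((n - μ.sum)! * μ.prod * D) := by gcongr
      exact Nat.le_of_mul_le_mul_left h3 (Nat.factorial_pos _)
    calc N * (D * μ.countPerms) = (N * D) * μ.countPerms := by ring
      _ ≤ n ^ μ.sum * μ.countPerms :=
        Nat.mul_le_mul_right _ (h2.trans (Nat.descFactorial_le_pow _ _))
  · have h0 := (Equiv.Perm.card_of_cycleType_eq_zero_iff (Fin n) (m := μ)).2
      (by rw [Fintype.card_fin]; exact hm)
    rw [h0]
    simp

lemma prod_half (μ : Multiset ℕ) :
    (μ.map (fun l => (1 / 2 : ℝ) ^ l)).prod = (1 / 2 : ℝ) ^ μ.sum := by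
  induction μ using Multiset.induction_on with
  | empty => simp
  | cons a t ih => rw [Multiset.map_cons, Multiset.prod_cons, ih, Multiset.sum_cons, pow_add]

lemma sum_half (s : ℕ) : ∑ l ∈ Finset.Icc 1 s, (1 / 2 : ℝ) ^ l = 1 - (1 / 2 : ℝ) ^ s := by
  induction s with
  | zero => simp
  | succ s ih =>
    rw [Finset.sum_Icc_succ_top (by omega), ih]
    ring

lemma count_le (m s : ℕ) (T : Finset (Multiset ℕ))
    (hT : ∀ μ ∈ T, Multiset.card μ = m ∧ μ.sum = s ∧ ∀ a ∈ μ, 1 ≤ a) :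
    ∑ μ ∈ T, μ.countPerms ≤ 2 ^ s := by
  classical
  have hsub : T ⊆ ((Finset.Icc 1 s).sym m).image (fun k => k.1) := by
    intro μ hμ
    obtain ⟨h1, h2, h3⟩ := hT μ hμ
    rw [mem_image]
    refine ⟨Sym.mk μ h1, ?_, rfl⟩
    rw [Finset.mem_sym_iff]
    intro a ha
    have ha' : a ∈ μ := ha
    rw [Finset.mem_Icc]
    exact ⟨h3 a ha', by rw [← h2]; exact Multiset.le_sum_of_mem ha'⟩
  have hs := Finset.sum_pow (s := Finset.Icc 1 s) (fun l : ℕ => (1 / 2 : ℝ) ^ l) m
  have hinj : ∀ x ∈ (Finset.Icc 1 s).sym m, ∀ y ∈ (Finset.Icc 1 s).sym m,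
      (fun k : Sym ℕ m => k.1) x = (fun k : Sym ℕ m => k.1) y → x = y := by
    intro x _ y _ h
    exact Subtype.ext h
  have h1 : ∑ μ ∈ T, ((μ.countPerms : ℝ) * (1 / 2 : ℝ) ^ μ.sum) ≤ 1 := by
    calc ∑ μ ∈ T, ((μ.countPerms : ℝ) * (1 / 2 : ℝ) ^ μ.sum)
        ≤ ∑ μ ∈ ((Finset.Icc 1 s).sym m).image (fun k => k.1),
          ((μ.countPerms : ℝ) * (1 / 2 : ℝ) ^ μ.sum) :=
          Finset.sum_le_sum_of_subset_of_nonneg hsub fun _ _ _ => by positivity
      _ = ∑ k ∈ (Finset.Icc 1 s).sym m, ((k.1.countPerms : ℝ) * (1 / 2 : ℝ) ^ k.1.sum) :=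
          Finset.sum_image hinj
      _ = (∑ l ∈ Finset.Icc 1 s, (1 / 2 : ℝ) ^ l) ^ m := by
          rw [hs]
          refine Finset.sum_congr rfl fun k _ => ?_
          rw [prod_half]
      _ ≤ 1 := by
          rw [sum_half]
          apply pow_le_one₀
          · have : (1 / 2 : ℝ) ^ s ≤ 1 := pow_le_one₀ (by norm_num) (by norm_num)
            linarith
          · have : 0 ≤ (1 / 2 : ℝ) ^ s := by positivity
            linarith
  have h2 : ∑ μ ∈ T, ((μ.countPerms : ℝ) * (1 / 2 : ℝ) ^ μ.sum) =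
      (∑ μ ∈ T, (μ.countPerms : ℝ)) * (1 / 2 : ℝ) ^ s := by
    rw [Finset.sum_mul]
    refine Finset.sum_congr rfl fun μ hμ => ?_
    rw [(hT μ hμ).2.1]
  rw [h2] at h1
  have h3 : (∑ μ ∈ T, (μ.countPerms : ℝ)) ≤ 2 ^ s := by
    have e : (1 / 2 : ℝ) ^ s * 2 ^ s = 1 := by
      rw [← mul_pow]
      norm_num
    have h5 := mul_le_mul_of_nonneg_right h1 (show (0 : ℝ) ≤ 2 ^ s by positivity)
    rw [mul_assoc, e] at h5
    linarith
  exact_mod_cast h3

open Classical in
theorem t_PERMS : S_PERMS := by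
  intro n s m
  set A := (univ : Finset (Equiv.Perm (Fin n))).filter
    (fun π => π.support.card = s ∧ π.cycleType.card = m) with hA
  have h1 : A.card = ∑ μ ∈ A.image (fun π => π.cycleType),
      (A.filter (fun π => π.cycleType = μ)).card := Finset.card_eq_sum_card_image _ _
  have hT : ∀ μ ∈ A.image (fun π => π.cycleType),
      Multiset.card μ = m ∧ μ.sum = s ∧ ∀ a ∈ μ, 1 ≤ a := by
    intro μ hμ
    rw [mem_image] at hμ
    obtain ⟨π, hπ, rfl⟩ := hμ
    rw [hA, mem_filter] at hπ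
    refine ⟨hπ.2.2, ?_, fun a ha => ?_⟩
    · rw [Equiv.Perm.sum_cycleType]
      exact hπ.2.1
    · have := Equiv.Perm.two_le_of_mem_cycleType ha
      omega
  have h2 := count_le m s _ hT
  calc A.card * m ! = ∑ μ ∈ A.image (fun π => π.cycleType),
      ((A.filter (fun π => π.cycleType = μ)).card * m !) := by rw [h1, Finset.sum_mul]
    _ ≤ ∑ μ ∈ A.image (fun π => π.cycleType), (n ^ s * μ.countPerms) := by
      apply Finset.sum_le_sum
      intro μ hμ
      obtain ⟨e1, e2, _⟩ := hT μ hμ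
      have h3 := perms_le n μ
      rw [e1, e2] at h3
      refine le_trans (Nat.mul_le_mul_right _ (card_le_card ?_)) h3
      intro π hπ
      rw [mem_filter] at hπ ⊢
      exact ⟨mem_univ _, hπ.2⟩
    _ = n ^ s * ∑ μ ∈ A.image (fun π => π.cycleType), μ.countPerms := by rw [Finset.mul_sum]
    _ ≤ n ^ s * 2 ^ s := Nat.mul_le_mul_left _ h2

end Pool.Agent.K1H26.CG
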