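import Pool.Agent.K1H77.CG.Stm

/-!
Project CG (helper77), piece TYP (helper26): typical graphs are connected, have no small dense sets
and have cycles of many different lengths.
-/

set_option autoImplicit false

open Finset Filter Topology

namespace Pool.Agent.K1H26.CG

open Pool.Agent.K1H77.CG

lemma tend_a : Tendsto (fun k : ℕ => (2 * ((k : ℝ) + 1) / 2 ^ (k + 1) : ℝ)) atTop (𝓝 0) := by
  have h := tendsto_pow_const_div_const_pow_of_one_lt 1 (r := (2 : ℝ)) (by norm_num)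
  have h2 := (h.comp (tendsto_add_atTop_nat 1)).const_mul (2 : ℝ)
  simp only [mul_zero] at h2
  refine h2.congr fun k => ?_
  simp only [Function.comp]
  push_cast
  ring

lemma fm6 (m : ℕ) : (0 : ℝ) < fm (6 * m) := by
  have h := fm_pos (3 * m)
  have e : 2 * (3 * m) = 6 * m := by ring
  rw [e] at h
  exact_mod_cast h

lemma ev_le {s : ℕ → ℕ} (h : Tendsto (fun k : ℕ => ((s k : ℕ) : ℝ) / fm (6 * k)) atTop (𝓝 0))
    {δ : ℝ} (hδ : 0 < δ) : ∀ᶠ m : ℕ in atTop, (s m : ℝ) ≤ δ * fm (6 * m) := by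
  filter_upwards [h.eventually (gt_mem_nhds hδ)] with m hm
  exact ((div_lt_iff₀ (fm6 m)).1 hm).le

open Classical in
theorem t_TYP (h1 : S_CONN) (h2 : S_DENS) (h3 : S_EX) : S_TYP := by
  intro d ε hε
  have hd : (0 : ℝ) < 4 * ((d : ℝ) + 1) := by positivity
  obtain ⟨k1, hk1⟩ := eventually_atTop.1 (tend_a.eventually (gt_mem_nhds (div_pos hε hd)))
  obtain ⟨k0, hk0, hk2⟩ : ∃ k0 : ℕ, k1 ≤ k0 ∧ 2 ≤ k0 := ⟨k1 + 2, by omega, by omega⟩
  refine ⟨k0 + d, ?_⟩
  have e1 := ev_le h1 (δ := ε / 4) (by positivity)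
  have e2 := ev_le (h2 (2 * (k0 + d) + 2)) (δ := ε / 4) (by positivity)
  have e3 : ∀ᶠ m : ℕ in atTop, ∀ k ∈ Finset.Ico k0 (k0 + d),
      (((Mat (HE (2 * m))).filter (fun M => cycs k M = ∅)).card : ℝ) ≤
        (2 * (k + 1) / 2 ^ (k + 1) + ε / (4 * ((d : ℝ) + 1))) * fm (6 * m) := by
    rw [Filter.eventually_all_finset]
    intro k _
    exact h3 k _ (div_pos hε hd)
  filter_upwards [e1, e2, e3] with m m1 m2 m3
  have hsub : (Mat (HE (2 * m))).filter (fun M => ¬ (Conn M ∧ NoDense (2 * (k0 + d) + 2) M ∧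
      d ≤ (lens (k0 + d) M).card)) ⊆
      ((Mat (HE (2 * m))).filter (fun M => ¬ Conn M) ∪
        (Mat (HE (2 * m))).filter (fun M => ¬ NoDense (2 * (k0 + d) + 2) M)) ∪
      (Finset.Ico k0 (k0 + d)).biUnion
        (fun k => (Mat (HE (2 * m))).filter (fun M => cycs k M = ∅)) := by
    intro M hM
    rw [mem_filter] at hM
    obtain ⟨hM, hn⟩ := hM
    by_contra hcon
    simp only [mem_union, mem_filter, mem_biUnion, not_or, not_and, not_not, not_exists, hM,
      true_and, forall_const] at hcon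
    obtain ⟨⟨a1, a2⟩, a3⟩ := hcon
    apply hn
    refine ⟨a1, a2, ?_⟩
    have hs : Finset.Ico k0 (k0 + d) ⊆ lens (k0 + d) M := by
      intro k hk
      have hk' := Finset.mem_Ico.1 hk
      simp only [lens, mem_filter, mem_range]
      refine ⟨by omega, by omega, ?_⟩
      exact Finset.nonempty_iff_ne_empty.2 (a3 k hk)
    have := card_le_card hs
    simpa using this
  have hc := card_le_card hsub
  have hc2 := (hc.trans (card_union_le _ _)).trans (add_le_add (card_union_le _ _) card_biUnion_le)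
  have hc3 : (((Mat (HE (2 * m))).filter (fun M => ¬ (Conn M ∧ NoDense (2 * (k0 + d) + 2) M ∧
      d ≤ (lens (k0 + d) M).card))).card : ℝ) ≤
      ((((Mat (HE (2 * m))).filter (fun M => ¬ Conn M)).card : ℝ) +
        (((Mat (HE (2 * m))).filter (fun M => ¬ NoDense (2 * (k0 + d) + 2) M)).card : ℝ)) +
      ∑ k ∈ Finset.Ico k0 (k0 + d),
        (((Mat (HE (2 * m))).filter (fun M => cycs k M = ∅)).card : ℝ) := by
    exact_mod_cast hc2
  have hs : ∑ k ∈ Finset.Ico k0 (k0 + d),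
        (((Mat (HE (2 * m))).filter (fun M => cycs k M = ∅)).card : ℝ) ≤
      ∑ _k ∈ Finset.Ico k0 (k0 + d), (2 * (ε / (4 * ((d : ℝ) + 1)))) * fm (6 * m) := by
    apply Finset.sum_le_sum
    intro k hk
    refine (m3 k hk).trans ?_
    have hk' := Finset.mem_Ico.1 hk
    have := hk1 k (hk0.trans hk'.1)
    apply mul_le_mul_of_nonneg_right _ (fm6 m).le
    linarith
  rw [Finset.sum_const, Nat.card_Ico, nsmul_eq_mul] at hs
  have hs2 : ((k0 + d - k0 : ℕ) : ℝ) * ((2 * (ε / (4 * ((d : ℝ) + 1)))) * fm (6 * m)) ≤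
      ε / 2 * fm (6 * m) := by
    have e0 : k0 + d - k0 = d := by omega
    rw [e0, ← mul_assoc]
    apply mul_le_mul_of_nonneg_right _ (fm6 m).le
    have e4 : (d : ℝ) * (2 * (ε / (4 * ((d : ℝ) + 1)))) = ε / 2 * ((d : ℝ) / ((d : ℝ) + 1)) := by
      field_simp
      ring
    rw [e4]
    have : (d : ℝ) / ((d : ℝ) + 1) ≤ 1 := by
      rw [div_le_one (by positivity)]
      linarith
    nlinarith
  have hfm := fm6 m
  linarith

end Pool.Agent.K1H26.CG
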